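import Pool.Agent.MQG.StmtsC

set_option autoImplicit false

/-!
# Squad MQG, rows TLB and HBD
-/

namespace Pool.Agent.MQG.H58

open scoped InnerProductSpace InnerProduct Topology ComplexConjugate
open Complex Filter Pool.Agent.MQG

/-- Row TLB. -/
theorem tlb : TlbStmt := by
  intro ι V hV a C s F hF r hr hrs
  have hC0 : 0 ≤ C := (norm_nonneg _).trans (hF 0 (by simp) (by simpa using (hr.trans_le hrs).le)).1
  refine ⟨F, ?_, ⟨C, fun z h1 h2 => (hF z h1 (h2.trans hrs)).1⟩, ?_, rfl⟩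
  · intro u y
    have hden : ∀ (v : L2 ι) (n : ℕ), ∃ f, Traj V f ∧ ‖f 0 - v‖ < 1 / ((n : ℝ) + 1) := by
      intro v n
      have h1 := hV.dense_entire v
      rw [Metric.mem_closure_iff] at h1
      obtain ⟨w, ⟨f, hf, rfl⟩, h2⟩ := h1 (1 / ((n : ℝ) + 1)) (by positivity)
      refine ⟨f, hf, ?_⟩
      rw [dist_comm, dist_eq_norm] at h2
      exact h2
    choose fu hfu hfu' using hden u
    choose gy hgy hgy' using hden y
    have ht : ∀ (v : L2 ι) (k : ℕ → ℂ → L2 ι), (∀ n, ‖k n 0 - v‖ < 1 / ((n : ℝ) + 1)) →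
        Tendsto (fun n => k n 0) atTop (𝓝 v) := by
      intro v k hk
      rw [tendsto_iff_norm_sub_tendsto_zero]
      exact squeeze_zero (fun n => norm_nonneg _) (fun n => (hk n).le)
        tendsto_one_div_add_atTop_nhds_zero_nat
    have h1 := ht u fu hfu'
    have h2 := ht y gy hgy'
    have hb : Tendsto (fun n => C * (‖fu n 0 - u‖ * ‖gy n 0‖ + ‖u‖ * ‖gy n 0 - y‖)) atTop (𝓝 0) := by
      have h3 := tendsto_iff_norm_sub_tendsto_zero.1 h1
      have h4 := tendsto_iff_norm_sub_tendsto_zero.1 h2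
      have h5 := ((h3.mul h2.norm).add (h4.const_mul ‖u‖)).const_mul C
      simpa using h5
    have hunif : TendstoUniformlyOn (fun (n : ℕ) z => ⟪fu n 0, F z (gy n 0)⟫_ℂ)
        (fun z => ⟪u, F z y⟫_ℂ) atTop {z | 0 ≤ z.im ∧ z.im ≤ r} := by
      rw [Metric.tendstoUniformlyOn_iff]
      intro ε hε
      filter_upwards [hb.eventually (gt_mem_nhds hε)] with n hn z hz
      refine lt_of_le_of_lt ?_ hn
      have hz' := (hF z hz.1 (hz.2.trans hrs)).1
      rw [dist_comm, dist_eq_norm]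
      have e1 : ⟪fu n 0, F z (gy n 0)⟫_ℂ - ⟪u, F z y⟫_ℂ =
          ⟪fu n 0 - u, F z (gy n 0)⟫_ℂ + ⟪u, F z (gy n 0 - y)⟫_ℂ := by
        rw [inner_sub_left, map_sub, inner_sub_right]
        ring
      rw [e1]
      refine (norm_add_le _ _).trans ?_
      have e2 : ∀ v w : L2 ι, ‖⟪v, F z w⟫_ℂ‖ ≤ C * (‖v‖ * ‖w‖) := by
        intro v w
        refine (norm_inner_le_norm _ _).trans ?_
        have h3 : ‖F z w‖ ≤ C * ‖w‖ :=
          ((F z).le_opNorm w).trans (mul_le_mul_of_nonneg_right hz' (norm_nonneg _))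
        calc ‖v‖ * ‖F z w‖ ≤ ‖v‖ * (C * ‖w‖) := mul_le_mul_of_nonneg_left h3 (norm_nonneg _)
          _ = C * (‖v‖ * ‖w‖) := by ring
      rw [mul_add]
      exact add_le_add (e2 _ _) (e2 _ _)
    have hent : ∀ n, Differentiable ℂ fun z : ℂ => ⟪fu n (-(conj z)), a (gy n (-z))⟫_ℂ := by
      intro n
      have h3 : Differentiable ℂ fun w : ℂ => fu n (-w) := (hfu n).1.comp differentiable_id.neg
      have h4 : Differentiable ℂ fun w : ℂ => a (gy n (-w)) :=
        a.differentiable.comp ((hgy n).1.comp differentiable_id.neg)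
      exact inner_differentiable h3 h4
    have hEq : ∀ n, ∀ z ∈ {z : ℂ | 0 ≤ z.im ∧ z.im ≤ r}, ⟪fu n 0, F z (gy n 0)⟫_ℂ =
        ⟪fu n (-(conj z)), a (gy n (-z))⟫_ℂ := fun n z hz =>
      (hF z hz.1 (hz.2.trans hrs)).2 _ _ (hfu n) (hgy n)
    have hsub : {z : ℂ | 0 < z.im ∧ z.im < r} ⊆ {z | 0 ≤ z.im ∧ z.im ≤ r} :=
      fun z hz => ⟨hz.1.le, hz.2.le⟩
    have hclosed : IsClosed {z : ℂ | 0 ≤ z.im ∧ z.im ≤ r} :=
      (isClosed_le continuous_const continuous_im).inter (isClosed_le continuous_im continuous_const)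
    have hopen : IsOpen {z : ℂ | 0 < z.im ∧ z.im < r} :=
      (isOpen_lt continuous_const continuous_im).inter (isOpen_lt continuous_im continuous_const)
    constructor
    · refine ((hunif.mono hsub).tendstoLocallyUniformlyOn).differentiableOn
        (Eventually.of_forall fun n => ?_) hopen
      exact (hent n).differentiableOn.congr fun z hz => hEq n z (hsub hz)
    · refine (hunif.continuousOn (Eventually.of_forall fun n => ?_).frequently).mono
        (closure_minimal hsub hclosed)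
      exact (hent n).continuous.continuousOn.congr fun z hz => hEq n z hz
  · intro t
    have hmain : ∀ f g : ℂ → L2 ι, Traj V f → Traj V g →
        ⟪f 0, F t (g 0)⟫_ℂ = ⟪f 0, (V t * a * V (-t)) (g 0)⟫_ℂ := by
      intro f g hf hg
      rw [(hF t (by simp) (by simpa using (hr.trans_le hrs).le)).2 f g hf hg, conj_ofReal]
      have e1 : (-(t : ℂ)) = ((-t : ℝ) : ℂ) := by push_cast; rfl
      rw [e1, hf.2, hg.2, hV.inner_left, neg_neg]
      rfl
    ext1 y
    refine ext_inner_left ℂ fun u => ?_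
    have hc1 : Continuous fun u : L2 ι => ⟪u, F t y⟫_ℂ := continuous_id.inner continuous_const
    have hc2 : Continuous fun u : L2 ι => ⟪u, (V t * a * V (-t)) y⟫_ℂ :=
      continuous_id.inner continuous_const
    have h3 := Continuous.ext_on hV.dense_entire hc1 hc2 (by
      rintro _ ⟨f, hf, rfl⟩
      have hd1 : Continuous fun y : L2 ι => ⟪f 0, F t y⟫_ℂ :=
        continuous_const.inner (F t).continuous
      have hd2 : Continuous fun y : L2 ι => ⟪f 0, (V t * a * V (-t)) y⟫_ℂ :=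
        continuous_const.inner (V t * a * V (-t)).continuous
      have h4 := Continuous.ext_on hV.dense_entire hd1 hd2 (by
        rintro _ ⟨g, hg, rfl⟩
        exact hmain f g hf hg)
      exact congrFun h4 y)
    exact congrFun h3 u

/-- Row HBD. -/
theorem hbd : HbdStmt := by
  intro ι V κ U Uh hUh hH μ f g hf hg
  rw [inner_lam]
  have h1 : ‖μ (asl U (f (I / 2)) (g (-(I / 2))))‖ ≤
      ‖μ‖ * ‖asl U (f (I / 2)) (g (-(I / 2)))‖ := μ.le_opNorm _
  refine h1.trans ?_
  have h2 : ‖asl U (f (I / 2)) (g (-(I / 2)))‖ ≤ ‖f 0‖ * ‖g 0‖ := by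
    rw [← norm_val, val_asl, ← norm_star, star_sl, ← hH.sl hf hg]
    refine (norm_sl_le _ _ _).trans ?_
    rw [norm_star, norm_star]
    have h3 : ‖Uh‖ ≤ 1 := by
      rcases subsingleton_or_nontrivial (Op (κ × ι)) with h4 | h4
      · rw [Subsingleton.elim Uh 0, norm_zero]
        exact zero_le_one
      · exact (CStarRing.norm_of_mem_unitary hUh).le
    calc ‖Uh‖ * ‖f 0‖ * ‖g 0‖ ≤ 1 * ‖f 0‖ * ‖g 0‖ := by gcongr
      _ = ‖f 0‖ * ‖g 0‖ := by ring
  calc ‖μ‖ * ‖asl U (f (I / 2)) (g (-(I / 2)))‖ ≤ ‖μ‖ * (‖f 0‖ * ‖g 0‖) :=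
        mul_le_mul_of_nonneg_left h2 (norm_nonneg _)
    _ = ‖μ‖ * ‖f 0‖ * ‖g 0‖ := by ring

end Pool.Agent.MQG.H58
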